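import Pool.Agent.helper82.CH.SpecA

set_option autoImplicit false

open NumberField Complex Pool.Agent.UN

namespace Pool.Agent.CH

theorem UEX_rep (K : Type) [Field K] [NumberField K] (f : Ideal (𝓞 K)) (hf : f ≠ ⊥) (r : 𝓞 K) :
    ∃ y : 𝓞 K, y ≠ 0 ∧ y - r ∈ f ∧ ∀ φ : K →+* ℝ, 0 < φ ((y : 𝓞 K) : K) := by
  have hN : 0 < Ideal.absNorm f := Nat.pos_of_ne_zero (by rwa [Ne, Ideal.absNorm_eq_zero_iff])
  have hNf : ((Ideal.absNorm f : ℕ) : 𝓞 K) ∈ f := Ideal.absNorm_mem f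
  set N : ℕ := Ideal.absNorm f with hNdef
  have h1 : ∀ φ : K →+* ℝ, ∀ᶠ c : ℕ in Filter.atTop, 0 < φ ((r : 𝓞 K) : K) + (N : ℝ) * c := by
    intro φ
    have : Filter.Tendsto (fun c : ℕ => φ ((r : 𝓞 K) : K) + (N : ℝ) * c) Filter.atTop Filter.atTop := by
      apply Filter.tendsto_atTop_add_const_left
      exact Filter.Tendsto.const_mul_atTop (by exact_mod_cast hN) tendsto_natCast_atTop_atTop
    exact this.eventually_gt_atTop 0
  have h2 : ∀ᶠ c : ℕ in Filter.atTop, ∀ φ : K →+* ℝ, 0 < φ ((r : 𝓞 K) : K) + (N : ℝ) * c :=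
    Filter.eventually_all.2 h1
  have h3 : ∀ᶠ c : ℕ in Filter.atTop, r + (N : 𝓞 K) * (c : 𝓞 K) ≠ 0 := by
    have hs : {c : ℕ | r + (N : 𝓞 K) * (c : 𝓞 K) = 0}.Subsingleton := by
      intro c hc c' hc'
      simp only [Set.mem_ofPred_eq] at hc hc'
      have h : (N : 𝓞 K) * (c : 𝓞 K) = (N : 𝓞 K) * (c' : 𝓞 K) := by
        have := hc.trans hc'.symm
        exact add_left_cancel this
      have h' : (c : 𝓞 K) = (c' : 𝓞 K) := mul_left_cancel₀ (by exact_mod_cast hN.ne') h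
      exact_mod_cast h'
    have := hs.finite.eventually_cofinite_notMem
    rw [Nat.cofinite_eq_atTop] at this
    exact this
  obtain ⟨c, hc2, hc3⟩ := (h2.and h3).exists
  refine ⟨r + (N : 𝓞 K) * (c : 𝓞 K), hc3, ?_, ?_⟩
  · have : r + (N : 𝓞 K) * (c : 𝓞 K) - r = (N : 𝓞 K) * (c : 𝓞 K) := by ring
    rw [this]
    exact f.mul_mem_right _ hNf
  · intro φ
    have := hc2 φ
    simpa using this

theorem UEX : UEX_stmt := by
  intro F _ _ q d hq hd hqd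
  have h1 : (1 : 𝓞 F) ∈ q ⊔ d := by
    rw [hqd]
    exact Submodule.mem_top
  obtain ⟨a, ha, b, hb, hab⟩ := Submodule.mem_sup.1 h1
  have hqd0 : q * d ≠ ⊥ := mul_ne_zero hq hd
  obtain ⟨y, hy0, hy, hyp⟩ := UEX_rep F (q * d) hqd0 b
  refine ⟨y, hy0, ?_, ?_, hyp⟩
  · have h2 : y - b ∈ d := Ideal.mul_le_right (I := q) (J := d) hy
    have h3 := d.add_mem h2 hb
    rwa [sub_add_cancel] at h3
  · have h2 : y - b ∈ q := Ideal.mul_le_left (I := q) (J := d) hy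
    have h3 := q.sub_mem h2 ha
    have h4 : y - b - a = y - 1 := by
      rw [← hab]
      ring
    rwa [h4] at h3

end Pool.Agent.CH
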